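import Mathlib
import Pool.Agent.Q48.GC.Sub4
import Pool.Agent.TH419.FS.Rid

set_option autoImplicit false

/-! # Common divisors of `b^m` and `[β [α b^m]^2]` -/

namespace Pool.Agent.Results.MP_28dc30_nt.GcdBound

open Filter Topology

/-- `f(m) = [β [α b^m]^2]` -/
noncomputable def f (b : ℕ) (α β : ℝ) (m : ℕ) : ℤ := ⌊β * (⌊α * (b : ℝ) ^ m⌋ : ℝ) ^ 2⌋

/-- a large divisor of `b^m` is divisible by a large power of a prime factor of `b` -/
lemma exists_prime (b : ℕ) (hb : 2 ≤ b) (ε : ℝ) (hε : 0 < ε) (g m : ℕ) (hg : g ∣ b ^ m)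
    (hlarge : (b : ℝ) ^ (ε * m) ≤ g) :
    ∃ p ∈ b.primeFactors, (b : ℝ) ^ (ε / b.primeFactors.card * m) ≤ (p : ℝ) ^ g.factorization p := by
  have hb0 : (0 : ℝ) < b := by exact_mod_cast (by omega : 0 < b)
  have hcard : 0 < b.primeFactors.card := by
    rw [Finset.card_pos, Nat.nonempty_primeFactors]; omega
  have hbm : b ^ m ≠ 0 := pow_ne_zero _ (by omega)
  have hg0 : g ≠ 0 := fun h => hbm (by rw [h] at hg; exact Nat.eq_zero_of_zero_dvd hg)
  have hsub : g.primeFactors ⊆ b.primeFactors := by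
    intro p hp
    rw [Nat.mem_primeFactors] at hp ⊢
    exact ⟨hp.1, hp.1.dvd_of_dvd_pow (hp.2.1.trans hg), by omega⟩
  by_contra hcon
  push Not at hcon
  have hprod : (g : ℝ) = ∏ p ∈ b.primeFactors, (p : ℝ) ^ g.factorization p := by
    have h1 : g = ∏ p ∈ g.primeFactors, p ^ g.factorization p :=
      (Nat.prod_factorization_pow_eq_self hg0).symm
    have h2 : ∏ p ∈ g.primeFactors, p ^ g.factorization p =
        ∏ p ∈ b.primeFactors, p ^ g.factorization p := by
      apply Finset.prod_subset hsub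
      intro p _ hp
      rw [← Nat.support_factorization, Finsupp.notMem_support_iff] at hp
      rw [hp, pow_zero]
    conv_lhs => rw [h1, h2]
    push_cast
    rfl
  have hlt : ∏ p ∈ b.primeFactors, (p : ℝ) ^ g.factorization p <
      ∏ _p ∈ b.primeFactors, (b : ℝ) ^ (ε / b.primeFactors.card * m) := by
    apply Finset.prod_lt_prod_of_nonempty
    · intro p hp
      have : 0 < p := (Nat.prime_of_mem_primeFactors hp).pos
      positivity
    · exact hcon
    · exact Finset.card_pos.1 hcard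
  rw [Finset.prod_const, ← Real.rpow_natCast, ← Real.rpow_mul hb0.le] at hlt
  have e : ε / b.primeFactors.card * m * b.primeFactors.card = ε * m := by
    have : (b.primeFactors.card : ℝ) ≠ 0 := by exact_mod_cast hcard.ne'
    field_simp
  rw [e, ← hprod] at hlt
  exact absurd hlarge (not_le.2 hlt)

/-- **The gcd bound.** For every integer `b ≥ 2`, all irrational real algebraic numbers `α`, `β` and
every `ε > 0`, `gcd([β [α b^m]^2], b^m) < b^(ε m)` for all large `m`. -/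
theorem result : ∀ b : ℕ, 2 ≤ b → ∀ α β : ℝ, IsAlgebraic ℚ α → Irrational α → IsAlgebraic ℚ β →
    Irrational β → ∀ ε : ℝ, 0 < ε → ∃ M : ℕ, ∀ m : ℕ, M ≤ m →
      (Int.gcd (f b α β m) ((b : ℤ) ^ m) : ℝ) < (b : ℝ) ^ (ε * m) := by
  intro b hb α β hα hαi hβ hβi ε hε
  by_contra hcon
  push Not at hcon
  have hb0 : (0 : ℝ) < b := by exact_mod_cast (by omega : 0 < b)
  have hb1 : (1 : ℝ) < b := by exact_mod_cast (by omega : 1 < b)
  set g : ℕ → ℕ := fun m => Int.gcd (f b α β m) ((b : ℤ) ^ m) with hgdef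
  have hfreq : ∃ᶠ m in atTop, (b : ℝ) ^ (ε * (m : ℕ)) ≤ (g m : ℝ) := by
    rw [frequently_atTop]
    exact hcon
  have hgdvd : ∀ m, g m ∣ b ^ m := by
    intro m
    have h : ((g m : ℕ) : ℤ) ∣ (b : ℤ) ^ m := Int.gcd_dvd_right _ _
    exact_mod_cast h
  have hgdvd' : ∀ m, ((g m : ℕ) : ℤ) ∣ f b α β m := fun m => Int.gcd_dvd_left _ _
  set s : ℕ := b.primeFactors.card with hs
  have hcard : 0 < s := by
    rw [hs, Finset.card_pos, Nat.nonempty_primeFactors]; omega
  -- one prime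
  obtain ⟨p, hp, hpf⟩ : ∃ p ∈ b.primeFactors, ∃ᶠ m in atTop,
      (b : ℝ) ^ (ε / s * (m : ℕ)) ≤ (p : ℝ) ^ (g m).factorization p := by
    by_contra hno
    push Not at hno
    have h1 : ∀ᶠ m : ℕ in atTop, ∀ p ∈ b.primeFactors,
        (p : ℝ) ^ (g m).factorization p < (b : ℝ) ^ (ε / s * (m : ℕ)) := by
      rw [Finset.eventually_all]
      intro p hp
      have := hno p hp
      filter_upwards [this] with m hm
      exact hm
    obtain ⟨m, hm1, hm2⟩ := (hfreq.and_eventually h1).exists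
    obtain ⟨p, hp, hp2⟩ := exists_prime b hb ε hε (g m) m (hgdvd m) hm1
    exact absurd hp2 (not_le.2 (hm2 p hp))
  have hpp : p.Prime := Nat.prime_of_mem_primeFactors hp
  obtain ⟨ms, hmono, hms⟩ := extraction_of_frequently_atTop hpf
  have hmt : Tendsto ms atTop atTop := hmono.tendsto_atTop
  set A : ℕ → ℤ := fun t => ⌊α * (b : ℝ) ^ ms t⌋ with hA
  set F : ℕ → ℤ := fun t => f b α β (ms t) with hF
  set k : ℕ → ℕ := fun t => (g (ms t)).factorization p with hk
  have hAθ : ∀ t, 0 ≤ α * (b : ℝ) ^ ms t - A t ∧ α * (b : ℝ) ^ ms t - A t ≤ 1 := by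
    intro t
    have h1 := Int.floor_le (α * (b : ℝ) ^ ms t)
    have h2 := (Int.lt_floor_add_one (α * (b : ℝ) ^ ms t)).le
    constructor
    · simp only [hA]; linarith
    · simp only [hA]; linarith
  have hFφ : ∀ t, 0 ≤ β * (A t : ℝ) ^ 2 - F t ∧ β * (A t : ℝ) ^ 2 - F t ≤ 1 := by
    intro t
    have h1 := Int.floor_le (β * (A t : ℝ) ^ 2)
    have h2 := (Int.lt_floor_add_one (β * (A t : ℝ) ^ 2)).le
    have e : F t = ⌊β * (A t : ℝ) ^ 2⌋ := rfl
    rw [e]
    constructor <;> linarith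
  have hpk : ∀ t, p ^ k t ∣ g (ms t) := fun t => Nat.ordProj_dvd _ _
  obtain ⟨y, hy0, hy⟩ := Pool.Agent.Q48.GC.sub4 b p hb hpp.two_le α β hα hβ (ε / s)
    (div_pos hε (by exact_mod_cast hcard)) ms hmt k A F
    (fun t => by rw [abs_le]; constructor <;> linarith [(hAθ t).1, (hAθ t).2])
    (fun t => by rw [abs_le]; constructor <;> linarith [(hFφ t).1, (hFφ t).2])
    (fun t => by
      have h1 : ((p ^ k t : ℕ) : ℤ) ∣ ((g (ms t) : ℕ) : ℤ) := Int.natCast_dvd_natCast.2 (hpk t)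
      have h2 := h1.trans (hgdvd' (ms t))
      push_cast at h2
      exact h2)
    (fun t => by
      have h1 : p ^ k t ≤ b ^ ms t :=
        Nat.le_of_dvd (pow_pos (by omega) _) ((hpk t).trans (hgdvd _))
      exact_mod_cast h1)
    (fun t => hms t)
  -- the relation
  set γ : ℝ := y 2 + y 3 * β with hγ
  set c : ℝ := y 0 + y 1 * α + γ * α ^ 2 with hc
  set κ : ℝ := y 1 + 2 * α * γ with hκ
  have hrel : ∃ᶠ t in atTop, c * ((b : ℝ) ^ ms t) ^ 2 -
      κ * (α * (b : ℝ) ^ ms t - A t) * (b : ℝ) ^ ms t + γ * (α * (b : ℝ) ^ ms t - A t) ^ 2 -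
      y 3 * (β * (A t : ℝ) ^ 2 - F t) = 0 := by
    refine hy.mono fun t ht => ?_
    rw [← ht, show 2 * ms t = ms t + ms t by ring, pow_add, hκ, hc, hγ]
    ring
  have hXt : Tendsto (fun t => (b : ℝ) ^ ms t) atTop atTop :=
    (tendsto_pow_atTop_atTop_of_one_lt hb1).comp hmt
  -- the leading coefficient vanishes
  have hc0 : c = 0 := by
    by_contra hne
    have hcpos : 0 < |c| := abs_pos.2 hne
    have hev : ∀ᶠ t in atTop, (|κ| + |γ| + |(y 3 : ℝ)| + 1) / |c| < (b : ℝ) ^ ms t ∧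
        1 ≤ (b : ℝ) ^ ms t :=
      (hXt.eventually (eventually_gt_atTop _)).and (hXt.eventually (eventually_ge_atTop 1))
    obtain ⟨t, ht1, ht2, ht3⟩ := (hrel.and_eventually hev).exists
    obtain ⟨h1, h2⟩ := hAθ t
    obtain ⟨h3, h4⟩ := hFφ t
    set X : ℝ := (b : ℝ) ^ ms t
    set θ : ℝ := α * X - A t
    set φ : ℝ := β * (A t : ℝ) ^ 2 - F t
    have e : c * X ^ 2 = κ * θ * X - γ * θ ^ 2 + y 3 * φ := by linarith
    have h5 : |c| * X ^ 2 ≤ |κ| * X + |γ| + |(y 3 : ℝ)| := by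
      calc |c| * X ^ 2 = |c * X ^ 2| := by rw [abs_mul, abs_of_nonneg (sq_nonneg X)]
        _ = |κ * θ * X - γ * θ ^ 2 + y 3 * φ| := by rw [e]
        _ ≤ |κ * θ * X| + |γ * θ ^ 2| + |y 3 * φ| := by
            refine (abs_add_le _ _).trans ?_
            have := abs_sub (κ * θ * X) (γ * θ ^ 2)
            linarith
        _ ≤ |κ| * X + |γ| + |(y 3 : ℝ)| := by
            have a1 : |κ * θ * X| ≤ |κ| * X := by
              rw [abs_mul, abs_mul, abs_of_nonneg h1, abs_of_nonneg (by linarith : (0:ℝ) ≤ X)]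
              have : |κ| * θ ≤ |κ| := mul_le_of_le_one_right (abs_nonneg _) h2
              nlinarith
            have a2 : |γ * θ ^ 2| ≤ |γ| := by
              rw [abs_mul, abs_of_nonneg (sq_nonneg θ)]
              exact mul_le_of_le_one_right (abs_nonneg _) (pow_le_one₀ h1 h2)
            have a3 : |y 3 * φ| ≤ |(y 3 : ℝ)| := by
              rw [abs_mul, abs_of_nonneg h3]
              exact mul_le_of_le_one_right (abs_nonneg _) h4
            linarith
    rw [div_lt_iff₀ hcpos] at ht2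
    have h6 : (|κ| + |γ| + |(y 3 : ℝ)| + 1) * X < |c| * X ^ 2 := by nlinarith
    have h7 := abs_nonneg γ
    have h8 := abs_nonneg (y 3 : ℝ)
    nlinarith
  -- the second coefficient vanishes
  have hκ0 : κ = 0 := by
    by_contra hne
    have hκpos : 0 < |κ| := abs_pos.2 hne
    obtain ⟨κ₀, hκ₀, hR⟩ := Pool.Agent.TH419.FS.ridout_units b 2 hb le_rfl α hα hαi (1 / 2)
      (by norm_num)
    set K : ℝ := (|γ| + |(y 3 : ℝ)|) / |κ| with hK
    have hK0 : 0 ≤ K := by positivity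
    have hev : ∀ᶠ t in atTop, (K / κ₀ + 1) ^ 2 < (b : ℝ) ^ ms t :=
      hXt.eventually (eventually_gt_atTop _)
    obtain ⟨t, ht1, ht2⟩ := (hrel.and_eventually hev).exists
    obtain ⟨h1, h2⟩ := hAθ t
    obtain ⟨h3, h4⟩ := hFφ t
    have hR1 := hR (ms t) 0 (A t)
    rw [pow_zero, mul_one] at hR1
    set X : ℝ := (b : ℝ) ^ ms t
    have hX0 : 0 < X := lt_of_le_of_lt (sq_nonneg _) ht2
    rw [mul_comm X α, abs_of_nonneg h1] at hR1
    set θ : ℝ := α * X - A t
    set φ : ℝ := β * (A t : ℝ) ^ 2 - F t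
    rw [hc0] at ht1
    have e : κ * θ * X = γ * θ ^ 2 - y 3 * φ := by linarith
    have h5 : |κ| * (θ * X) ≤ |γ| + |(y 3 : ℝ)| := by
      calc |κ| * (θ * X) = |κ * θ * X| := by
            rw [mul_assoc, abs_mul κ, abs_of_nonneg (mul_nonneg h1 hX0.le)]
        _ = |γ * θ ^ 2 - y 3 * φ| := by rw [e]
        _ ≤ |γ * θ ^ 2| + |y 3 * φ| := abs_sub _ _
        _ ≤ |γ| + |(y 3 : ℝ)| := by
            have a2 : |γ * θ ^ 2| ≤ |γ| := by
              rw [abs_mul, abs_of_nonneg (sq_nonneg θ)]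
              exact mul_le_of_le_one_right (abs_nonneg _) (pow_le_one₀ h1 h2)
            have a3 : |y 3 * φ| ≤ |(y 3 : ℝ)| := by
              rw [abs_mul, abs_of_nonneg h3]
              exact mul_le_of_le_one_right (abs_nonneg _) h4
            linarith
    have h6 : θ * X ≤ K := by
      rw [hK, le_div_iff₀ hκpos]; linarith
    -- X^(1/2) θ ≥ κ₀
    set Y : ℝ := X ^ (1 / 2 : ℝ) with hY
    have hY0 : 0 < Y := Real.rpow_pos_of_pos hX0 _
    have hYY : Y * Y = X := by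
      rw [hY, ← Real.rpow_add hX0]; norm_num
    have h7 : κ₀ * Y ≤ K := by
      calc κ₀ * Y ≤ (Y * θ) * Y := mul_le_mul_of_nonneg_right hR1 hY0.le
        _ = θ * X := by rw [← hYY]; ring
        _ ≤ K := h6
    have h8 : Y ≤ K / κ₀ := by rw [le_div_iff₀ hκ₀]; linarith
    have h9 : X ≤ (K / κ₀) ^ 2 := by rw [← hYY, sq]; exact mul_self_le_mul_self hY0.le h8
    have h10 : (0:ℝ) ≤ K / κ₀ := by positivity
    nlinarith
  -- conclusion
  by_cases hγ0 : γ = 0
  · have h3 : y 3 = 0 := by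
      by_contra h3
      have h3' : (y 3 : ℝ) ≠ 0 := by exact_mod_cast h3
      apply hβi
      refine ⟨-(y 2 : ℚ) / (y 3 : ℚ), ?_⟩
      push_cast
      rw [hγ] at hγ0
      field_simp
      linarith
    have h2 : y 2 = 0 := by
      rw [hγ, h3] at hγ0
      have : (y 2 : ℝ) = 0 := by simpa using hγ0
      exact_mod_cast this
    have h1 : y 1 = 0 := by
      rw [hκ, hγ0] at hκ0
      have : (y 1 : ℝ) = 0 := by simpa using hκ0
      exact_mod_cast this
    have h0 : y 0 = 0 := by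
      rw [hc, hγ0, h1] at hc0
      have : (y 0 : ℝ) = 0 := by simpa using hc0
      exact_mod_cast this
    apply hy0
    funext l
    fin_cases l
    · exact h0
    · exact h1
    · exact h2
    · exact h3
  · have hα0 : α ≠ 0 := hαi.ne_zero
    have h1 : (y 1 : ℝ) = -(2 * α * γ) := by rw [hκ] at hκ0; linarith
    have h1' : (y 1 : ℝ) ≠ 0 := by
      rw [h1]
      exact neg_ne_zero.2 (mul_ne_zero (mul_ne_zero two_ne_zero hα0) hγ0)
    have h0 : (y 0 : ℝ) = γ * α ^ 2 := by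
      rw [hc] at hc0
      rw [h1] at hc0
      linarith
    apply hαi
    refine ⟨-(2 * (y 0 : ℚ)) / (y 1 : ℚ), ?_⟩
    push_cast
    rw [h0, div_eq_iff h1', h1]
    ring

end Pool.Agent.Results.MP_28dc30_nt.GcdBound
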